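import Pool.Agent.K9h60.SC.Unl

/-!
# Labeled self-converse digraphs: the number up to an exponentially small relative error

`s p` is the number of the self-converse digraphs on the point set `Fin p` (starting file `SubgroupFormula`), and
`mainTerm p = 2 ^ (p (p - 1) / 2) * ∑ t ≤ p / 2, p! / ((p - 2 t)! t!)`
is the number of the pairs of a digraph on `Fin p` and an anti-automorphism `σ` of it with `σ ^ 2 = 1`.

Proof. `Phi σ (u, v) = (σ v, σ u)`; the number of the digraphs with the anti-automorphism `σ` is `2` to the number of the
cycles of `Phi σ` on the ordered pairs of distinct points. If `σ ^ 2 = 1` with `t` transpositions this is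
`2 ^ (p (p - 1) / 2 + t)`. If `σ ^ 2 ≠ 1` let `σ'` be the product of the transpositions of `σ`, and let `m` be the
number of the points in cycles of length at least three; all but `2 m` of the `m (2 p - m - 1)` pairs which meet these
points are in cycles of `Phi σ` of length at least four, so `σ` has at most `2 ^ (- m (2 p - m - 7) / 4)` times as many
digraphs as `σ'`. If a digraph has two anti-automorphisms `σ ≠ τ` of order at most two which differ at `m` points, then
all but `6 m` of the pairs which meet these points are in classes (generated by `Phi σ` and `Phi τ`) with at least four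
elements, and the number of the digraphs is at most `2 ^ (- m (2 p - m - 7) / 4)` times that for `σ`. Sum over all
permutations of `m` points, `m ≥ 2`; the sum is dominated by `m = 2`.
-/

set_option autoImplicit false

open Filter Topology Finset

namespace Pool.Agent.Results.MP_b5e4d4_co.LabeledAsymptotics

open Pool.Agent.Results.MP_b5e4d4_co.SubgroupFormula (LDigraph SelfConverse s)

/-- the number of the pairs of a labeled digraph and an anti-automorphism of order at most two -/
noncomputable def mainTerm (p : ℕ) : ℝ := 2 ^ (p * (p - 1) / 2) *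
  ∑ t ∈ range (p / 2 + 1), (p.factorial : ℝ) / ((p - 2 * t).factorial * t.factorial)

/-- the bound for the relative error -/
noncomputable def err (p : ℕ) : ℝ := 96 * p ^ 4 / 2 ^ p

/-- `D` has an automorphism other than the identity -/
def HasAut {p : ℕ} (D : LDigraph p) : Prop :=
  ∃ τ : Equiv.Perm (Fin p), τ ≠ 1 ∧ ∀ u v, D.1 u v ↔ D.1 (τ u) (τ v)

/-- `D` and `D'` are isomorphic -/
def Iso {p : ℕ} (D D' : LDigraph p) : Prop :=
  ∃ τ : Equiv.Perm (Fin p), ∀ u v, D.1 u v ↔ D'.1 (τ u) (τ v)

/-- isomorphism of self-converse digraphs is an equivalence relation -/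
def isoSetoid (p : ℕ) : Setoid {D : LDigraph p // SelfConverse D} :=
  ⟨fun D D' => Iso D.1 D'.1, (Pool.Agent.K9h60.SC.isoSetoid p).iseqv⟩

/-- the number of the unlabeled self-converse digraphs of order `p` (isomorphism classes) -/
noncomputable def unlabeled (p : ℕ) : ℕ := Nat.card (Quotient (isoSetoid p))

/-- For all `p ≥ 57`: (1) the number `s p` of the labeled self-converse digraphs of order `p` differs from `mainTerm p`
by at most `err p * mainTerm p`; (2) `p!` times the number of the isomorphism classes of self-converse digraphs of order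
`p` is between `mainTerm p` and `(1 + err p) * mainTerm p`; (3) at most `2 * err p * mainTerm p` of the labeled
self-converse digraphs of order `p` have an automorphism other than the identity. Moreover (4) `err p → 0` (at
exponential speed), `s p` is asymptotic to `mainTerm p` and to `p!` times the number of the isomorphism classes. -/
theorem result :
    (∀ p : ℕ, 57 ≤ p →
      |(s p : ℝ) - mainTerm p| ≤ err p * mainTerm p ∧
      (mainTerm p ≤ p.factorial * (unlabeled p : ℝ) ∧
        p.factorial * (unlabeled p : ℝ) ≤ (1 + err p) * mainTerm p) ∧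
      (Nat.card {D : LDigraph p // SelfConverse D ∧ HasAut D} : ℝ) ≤ 2 * err p * mainTerm p) ∧
    Tendsto err atTop (𝓝 0) ∧
    Tendsto (fun p : ℕ => (s p : ℝ) / mainTerm p) atTop (𝓝 1) ∧
    Tendsto (fun p : ℕ => (s p : ℝ) / (p.factorial * (unlabeled p : ℝ))) atTop (𝓝 1) := by
  refine ⟨fun p hp => ⟨Pool.Agent.K9h60.SC.est hp, Pool.Agent.K9h60.SC.est_unl hp,
    Pool.Agent.K9h60.SC.est_aut hp⟩, Pool.Agent.K9h60.SC.err_tendsto, Pool.Agent.K9h60.SC.ratio, ?_⟩
  have h1 : Tendsto (fun p : ℕ => (p.factorial : ℝ) * (unlabeled p : ℝ) / mainTerm p) atTop (𝓝 1) := by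
    have h2 : Tendsto (fun p : ℕ => 1 + err p) atTop (𝓝 (1 + 0)) :=
      tendsto_const_nhds.add Pool.Agent.K9h60.SC.err_tendsto
    rw [add_zero] at h2
    refine tendsto_of_tendsto_of_tendsto_of_le_of_le' tendsto_const_nhds h2 ?_ ?_
    · filter_upwards [eventually_ge_atTop 57] with p hp
      have h3 : 0 < mainTerm p := Pool.Agent.K9h60.SC.main_pos p
      rw [le_div_iff₀ h3, one_mul]
      exact (Pool.Agent.K9h60.SC.est_unl hp).1
    · filter_upwards [eventually_ge_atTop 57] with p hp
      have h3 : 0 < mainTerm p := Pool.Agent.K9h60.SC.main_pos p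
      rw [div_le_iff₀ h3]
      exact (Pool.Agent.K9h60.SC.est_unl hp).2
  have h4 := (Pool.Agent.K9h60.SC.ratio).div h1 one_ne_zero
  rw [div_one] at h4
  refine h4.congr fun p => ?_
  have h3 : mainTerm p ≠ 0 := (Pool.Agent.K9h60.SC.main_pos p).ne'
  change (s p : ℝ) / mainTerm p / (p.factorial * (unlabeled p : ℝ) / mainTerm p) = _
  exact div_div_div_cancel_right₀ h3 _ _

end Pool.Agent.Results.MP_b5e4d4_co.LabeledAsymptotics
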